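import Pool.Agent.Q198.Weak

set_option autoImplicit false

/-!
# MP_4410f0_an, Q1: thickness index at least one does not force weakly open sets of diameter two
-/

namespace Pool.Agent.Results.MP_4410f0_an.ThicknessOneSmallSlice

open Filter Topology ZeroAtInfty Pool.Agent.Q198.Weak BoundedContinuousFunction

/-- The Daugavet index of thickness. -/
noncomputable def thickness (X : Type*) [NormedAddCommGroup X] [NormedSpace ℝ X] : ℝ :=
  sInf {r : ℝ | 0 < r ∧ ∃ x : X, ‖x‖ = 1 ∧ ∃ W : Set X, RelWeaklyOpen W ∧ W.Nonempty ∧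
    W ⊆ Metric.closedBall x r}

/-- The space: pairs `(u, w)` with `u ∈ c_0`, `w` bounded and `u - w` constant, with the maximum of the
two supremum norms. -/
noncomputable def E : Submodule ℝ (C₀(ℕ, ℝ) × (ℕ →ᵇ ℝ)) where
  carrier := {p | ∀ n, p.1 n - p.2 n = p.1 0 - p.2 0}
  add_mem' := by
    intro a b ha hb n
    have h1 := ha n
    have h2 := hb n
    simp only [Prod.fst_add, Prod.snd_add, ZeroAtInftyContinuousMap.add_apply,
      BoundedContinuousFunction.add_apply]
    linarith
  zero_mem' := by intro n; simp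
  smul_mem' := by
    intro c a ha n
    have h1 := ha n
    simp only [Prod.smul_fst, Prod.smul_snd, ZeroAtInftyContinuousMap.smul_apply,
      BoundedContinuousFunction.smul_apply, smul_eq_mul]
    rw [← mul_sub, ← mul_sub, h1]

lemma abs_c0_le (u : C₀(ℕ, ℝ)) (n : ℕ) : |u n| ≤ ‖u‖ := by
  have := u.toBCF.norm_coe_le_norm n
  simpa using this

lemma norm_c0_le (u : C₀(ℕ, ℝ)) {C : ℝ} (hC : 0 ≤ C) (h : ∀ n, |u n| ≤ C) : ‖u‖ ≤ C := by
  have : ‖u.toBCF‖ ≤ C := (BoundedContinuousFunction.norm_le hC).2 fun n => by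
    rw [Real.norm_eq_abs]; exact h n
  simpa using this

/-- Evaluation functionals. -/
noncomputable def evc (n : ℕ) : C₀(ℕ, ℝ) →L[ℝ] ℝ :=
  LinearMap.mkContinuous
    { toFun := fun u => u n
      map_add' := fun _ _ => rfl
      map_smul' := fun _ _ => rfl } 1 (fun u => by
    rw [one_mul]; exact abs_c0_le u n)

lemma E_closed : IsClosed (E : Set (C₀(ℕ, ℝ) × (ℕ →ᵇ ℝ))) := by
  have : (E : Set (C₀(ℕ, ℝ) × (ℕ →ᵇ ℝ))) = ⋂ n, {p | p.1 n - p.2 n = p.1 0 - p.2 0} := by
    ext p; simp [E]
  rw [this]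
  refine isClosed_iInter fun n => ?_
  have h1 : ∀ m, Continuous fun p : C₀(ℕ, ℝ) × (ℕ →ᵇ ℝ) => p.1 m := fun m =>
    (evc m).continuous.comp continuous_fst
  have h2 : ∀ m, Continuous fun p : C₀(ℕ, ℝ) × (ℕ →ᵇ ℝ) => p.2 m := fun m =>
    (BoundedContinuousFunction.evalCLM ℝ m).continuous.comp continuous_snd
  exact isClosed_eq ((h1 n).sub (h2 n)) ((h1 0).sub (h2 0))

/-- The Banach space `E` as a type. -/
def Sp : Type := E

noncomputable instance : NormedAddCommGroup Sp := inferInstanceAs (NormedAddCommGroup E)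
noncomputable instance : NormedSpace ℝ Sp := inferInstanceAs (NormedSpace ℝ E)
instance : CompleteSpace Sp := E_closed.completeSpace_coe

/-- The first component. -/
noncomputable def fstL : Sp →L[ℝ] C₀(ℕ, ℝ) :=
  LinearMap.mkContinuous
    { toFun := fun p => p.1.1
      map_add' := fun _ _ => rfl
      map_smul' := fun _ _ => rfl } 1 (fun u => by
    rw [one_mul]; exact norm_fst_le u.1)

/-- The second component. -/
noncomputable def sndL : Sp →L[ℝ] (ℕ →ᵇ ℝ) :=
  LinearMap.mkContinuous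
    { toFun := fun p => p.1.2
      map_add' := fun _ _ => rfl
      map_smul' := fun _ _ => rfl } 1 (fun u => by
    rw [one_mul]; exact norm_snd_le u.1)

/-- A finitely supported element of `c_0`. -/
noncomputable def fin0 (F : Finset ℕ) (a : ℕ → ℝ) : C₀(ℕ, ℝ) where
  toFun n := if n ∈ F then a n else 0
  continuous_toFun := continuous_of_discreteTopology
  zero_at_infty' := by
    rw [cocompact_eq_cofinite]
    refine tendsto_const_nhds.congr' ?_
    have : {n : ℕ | n ∉ F} ∈ (cofinite : Filter ℕ) := by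
      rw [mem_cofinite]
      refine F.finite_toSet.subset ?_
      intro n hn
      simpa using hn
    filter_upwards [this] with n hn
    rw [if_neg hn]

lemma fin0_apply (F : Finset ℕ) (a : ℕ → ℝ) (n : ℕ) : fin0 F a n = if n ∈ F then a n else 0 := rfl

/-- The element `(a, a)` of `E` for finitely supported `a`. -/
noncomputable def J (F : Finset ℕ) (a : ℕ → ℝ) : Sp :=
  ⟨(fin0 F a, (fin0 F a).toBCF), by intro n; simp⟩

lemma E_norm_le (p : Sp) {C : ℝ} (hC : 0 ≤ C) (h1 : ∀ n, |p.1.1 n| ≤ C) (h2 : ∀ n, |p.1.2 n| ≤ C) :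
    ‖p‖ ≤ C := by
  change ‖p.1‖ ≤ C
  rw [Prod.norm_def]
  exact max_le (norm_c0_le _ hC h1) ((BoundedContinuousFunction.norm_le hC).2 fun n => h2 n)

lemma E_le_norm1 (p : Sp) (n : ℕ) : |p.1.1 n| ≤ ‖p‖ :=
  (abs_c0_le _ n).trans (norm_fst_le p.1)

lemma E_le_norm2 (p : Sp) (n : ℕ) : |p.1.2 n| ≤ ‖p‖ :=
  (p.1.2.norm_coe_le_norm n).trans (norm_snd_le p.1)

lemma c0_tendsto (u : C₀(ℕ, ℝ)) : Tendsto (fun n => u n) atTop (𝓝 0) := by
  have h := u.zero_at_infty'
  rw [cocompact_eq_cofinite, Nat.cofinite_eq_atTop] at h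
  exact h

/-- `J {n} 1` tends weakly to zero. -/
lemma J_weak (f : Sp →L[ℝ] ℝ) : Tendsto (fun n => f (J {n} (fun _ => 1))) atTop (𝓝 0) := by
  refine wuc_tendsto (X := Sp) (E := fun n => J {n} (fun _ => 1)) (C := 1) ?_ f
  intro F ε hε
  have h1 : ∀ m, (∑ n ∈ F, ε n • J {n} (fun _ => 1)).1.1 m = if m ∈ F then ε m else 0 := by
    intro m
    have e : (∑ n ∈ F, ε n • J {n} (fun _ => 1)).1.1 m
        = ∑ n ∈ F, ε n * (if m = n then 1 else 0) := by
      have : ∀ G : Finset ℕ, (∑ n ∈ G, ε n • J {n} (fun _ => 1)).1.1 m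
          = ∑ n ∈ G, ε n * (if m = n then 1 else 0) := by
        intro G
        classical
        induction G using Finset.induction_on with
        | empty => rfl
        | insert k G hk ih =>
          rw [Finset.sum_insert hk, Finset.sum_insert hk, ← ih]
          change ε k * (if m ∈ ({k} : Finset ℕ) then (1 : ℝ) else 0) + _ = _
          simp [Finset.mem_singleton]
      exact this F
    rw [e]
    simp
  have h2 : ∀ m, (∑ n ∈ F, ε n • J {n} (fun _ => 1)).1.2 m = if m ∈ F then ε m else 0 := by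
    intro m
    have e : (∑ n ∈ F, ε n • J {n} (fun _ => 1)).1.2 m
        = ∑ n ∈ F, ε n * (if m = n then 1 else 0) := by
      have : ∀ G : Finset ℕ, (∑ n ∈ G, ε n • J {n} (fun _ => 1)).1.2 m
          = ∑ n ∈ G, ε n * (if m = n then 1 else 0) := by
        intro G
        classical
        induction G using Finset.induction_on with
        | empty => rfl
        | insert k G hk ih =>
          rw [Finset.sum_insert hk, Finset.sum_insert hk, ← ih]
          change ε k * (if m ∈ ({k} : Finset ℕ) then (1 : ℝ) else 0) + _ = _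
          simp [Finset.mem_singleton]
      exact this F
    rw [e]
    simp
  refine E_norm_le _ zero_le_one (fun m => ?_) (fun m => ?_)
  · rw [h1]; split_ifs
    · exact hε m
    · simp
  · rw [h2]; split_ifs
    · exact hε m
    · simp

/-- The far-away property: every nonempty relatively weakly open subset of the ball contains, for
every `x`, points at distance almost `1` from `x`. -/
lemma far (x : Sp) (W : Set Sp) (hW : RelWeaklyOpen W) (hne : W.Nonempty) (r : ℝ)
    (hr : ∀ y ∈ W, ‖y - x‖ ≤ r) : 1 ≤ r := by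
  obtain ⟨y, hy⟩ := hne
  have hy1 : ‖y‖ ≤ 1 := by
    obtain ⟨U, -, rfl⟩ := hW
    exact hy.1
  set t : ℝ := y.1.1 0 - y.1.2 0 with ht
  have hyt : ∀ n, y.1.2 n = y.1.1 n - t := fun n => by have := y.2 n; linarith
  -- the new coordinate
  obtain ⟨s, hs1, hs2⟩ : ∃ s : ℝ, |s| = 1 ∧ |s - t| ≤ 1 := by
    have ht1 : |t| ≤ 1 := by
      -- limit of `|u_n - t| ≤ 1`
      have h1 : Tendsto (fun n => |y.1.2 n|) atTop (𝓝 |0 - t|) := by
        have := ((c0_tendsto y.1.1).sub_const t).abs
        refine this.congr fun n => ?_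
        rw [hyt]
      have h2 := le_of_tendsto' h1 fun n => (E_le_norm2 y n).trans hy1
      rwa [zero_sub, abs_neg] at h2
    obtain ⟨h1, h2⟩ := abs_le.1 ht1
    rcases le_total 0 t with h | h
    · exact ⟨1, abs_one, by rw [abs_le]; constructor <;> linarith⟩
    · exact ⟨-1, by simp, by rw [abs_le]; constructor <;> linarith⟩
  let z : ℕ → Sp := fun n => y + (s - y.1.1 n) • J {n} (fun _ => 1)
  have hz1 : ∀ n m, (z n).1.1 m = if m = n then s else y.1.1 m := by
    intro n m
    change y.1.1 m + (s - y.1.1 n) * (if m ∈ ({n} : Finset ℕ) then (1 : ℝ) else 0) = _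
    by_cases h : m = n
    · subst h; simp
    · simp [Finset.mem_singleton, h]
  have hz2 : ∀ n m, (z n).1.2 m = if m = n then s - t else y.1.2 m := by
    intro n m
    change y.1.2 m + (s - y.1.1 n) * (if m ∈ ({n} : Finset ℕ) then (1 : ℝ) else 0) = _
    by_cases h : m = n
    · subst h; simp [hyt]
    · simp [Finset.mem_singleton, h]
  have hzn : ∀ n, ‖z n‖ ≤ 1 := by
    intro n
    refine E_norm_le _ zero_le_one (fun m => ?_) (fun m => ?_)
    · rw [hz1]; split_ifs
      · exact hs1.le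
      · exact (E_le_norm1 y m).trans hy1
    · rw [hz2]; split_ifs
      · exact hs2
      · exact (E_le_norm2 y m).trans hy1
  have hev := eventually_mem (l := atTop) hW hy (Eventually.of_forall hzn) (fun f => by
    have h1 : Tendsto (fun n => s - y.1.1 n) atTop (𝓝 (s - 0)) :=
      (c0_tendsto y.1.1).const_sub s
    have h2 := h1.mul (J_weak f)
    rw [mul_zero] at h2
    have h3 := h2.const_add (f y)
    rw [add_zero] at h3
    refine h3.congr fun n => ?_
    simp only [z, map_add, map_smul, smul_eq_mul])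
  -- distances
  have hd : ∀ᶠ n in atTop, |s - x.1.1 n| ≤ r := by
    filter_upwards [hev] with n hn
    have h1 := hr _ hn
    have h2 := (E_le_norm1 (z n - x) n).trans h1
    have h3 : (z n - x).1.1 n = s - x.1.1 n := by
      change (z n).1.1 n - x.1.1 n = _
      rw [hz1, if_pos rfl]
    rwa [h3] at h2
  have hlim : Tendsto (fun n => |s - x.1.1 n|) atTop (𝓝 |s - 0|) :=
    ((c0_tendsto x.1.1).const_sub s).abs
  have := le_of_tendsto hlim hd
  rwa [sub_zero, hs1] at this

/-- The functional `t` as an element of the dual. -/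
noncomputable def tL : Sp →L[ℝ] ℝ :=
  (evc 0).comp fstL - (BoundedContinuousFunction.evalCLM ℝ 0).comp sndL

lemma tL_apply (p : Sp) : tL p = p.1.1 0 - p.1.2 0 := rfl

lemma abs_tL_le (p : Sp) : |tL p| ≤ ‖p‖ := by
  have hp : ∀ n, p.1.2 n = p.1.1 n - tL p := fun n => by
    have := p.2 n
    rw [tL_apply]; linarith
  have h1 : Tendsto (fun n => |p.1.2 n|) atTop (𝓝 |0 - tL p|) := by
    have := ((c0_tendsto p.1.1).sub_const (tL p)).abs
    refine this.congr fun n => ?_
    rw [hp]
  have h2 := le_of_tendsto' h1 fun n => E_le_norm2 p n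
  rwa [zero_sub, abs_neg] at h2

/-- The point `(0, -1)`, i.e. `t = 1`. -/
noncomputable def top : Sp := ⟨(0, BoundedContinuousFunction.const ℕ (-1)), by intro n; simp⟩

lemma tL_top : tL top = 1 := by
  rw [tL_apply]
  change (0 : ℝ) - (-1) = 1
  norm_num

lemma norm_top_le : ‖top‖ ≤ 1 := by
  refine E_norm_le _ zero_le_one (fun n => ?_) (fun n => ?_)
  · change |(0 : ℝ)| ≤ 1; simp
  · change |(-1 : ℝ)| ≤ 1; simp

lemma norm_top : ‖top‖ = 1 := by
  apply le_antisymm norm_top_le
  have := abs_tL_le top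
  rwa [tL_top, abs_one] at this

lemma norm_tL : ‖tL‖ = 1 := by
  apply le_antisymm
  · refine ContinuousLinearMap.opNorm_le_bound _ zero_le_one fun p => ?_
    rw [one_mul]; exact abs_tL_le p
  · have := tL.le_opNorm top
    rwa [tL_top, norm_top, mul_one, norm_one] at this

/-- **Negative answer to Q1**: there is a real Banach space `X` with thickness index at least `1`
such that for every `δ > 0` there is a slice `W = {y ∈ B_X : f y > 1 - α}` of the unit ball
(`‖f‖ = 1`, `α > 0`), in particular a nonempty relatively weakly open subset of `B_X`, of diameter at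
most `1 + δ`. -/
theorem result : ∃ (X : Type) (_ : NormedAddCommGroup X) (_ : NormedSpace ℝ X) (_ : CompleteSpace X),
    1 ≤ thickness X ∧ ∀ δ : ℝ, 0 < δ → ∃ (f : X →L[ℝ] ℝ) (α : ℝ) (W : Set X), ‖f‖ = 1 ∧ 0 < α ∧
      W = {y | ‖y‖ ≤ 1 ∧ 1 - α < f y} ∧ RelWeaklyOpen W ∧ W.Nonempty ∧ Metric.diam W ≤ 1 + δ := by
  refine ⟨Sp, inferInstance, inferInstance, inferInstance, ?_, ?_⟩
  · apply le_csInf
    · refine ⟨2, by norm_num, top, norm_top, {y | ‖y‖ ≤ 1 ∧ toWeakSpace ℝ Sp y ∈ Set.univ},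
        ⟨Set.univ, isOpen_univ, rfl⟩, ⟨0, by simp⟩, ?_⟩
      rintro y ⟨hy, -⟩
      rw [mem_closedBall_iff_norm]
      have h1 : ‖y - top‖ ≤ ‖y‖ + ‖top‖ := norm_sub_le y top
      linarith [norm_top_le]
    · rintro r ⟨-, x, -, W, hW, hne, hsub⟩
      exact far x W hW hne r fun y hy => mem_closedBall_iff_norm.1 (hsub hy)
  · intro δ hδ
    let W : Set Sp := {y | ‖y‖ ≤ 1 ∧ 1 - δ / 2 < tL y}
    refine ⟨tL, δ / 2, W, norm_tL, by linarith, rfl,
      ⟨{y : WeakSpace ℝ Sp | 1 - δ / 2 < tL ((toWeakSpace ℝ Sp).symm y)},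
        isOpen_lt continuous_const (continuous_eval tL), rfl⟩,
      ⟨top, norm_top_le, ?_⟩, ?_⟩
    · rw [tL_top]; linarith
    · apply Metric.diam_le_of_forall_dist_le (by linarith)
      rintro y ⟨hy1, hyt⟩ z ⟨hz1, hzt⟩
      have hty : tL y ≤ 1 := (le_abs_self _).trans ((abs_tL_le y).trans hy1)
      have htz : tL z ≤ 1 := (le_abs_self _).trans ((abs_tL_le z).trans hz1)
      have hyn : ∀ n, y.1.2 n = y.1.1 n - tL y := fun n => by
        have := y.2 n
        rw [tL_apply]; linarith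
      have hzn : ∀ n, z.1.2 n = z.1.1 n - tL z := fun n => by
        have := z.2 n
        rw [tL_apply]; linarith
      rw [dist_eq_norm]
      have hb : ∀ (p : Sp), ‖p‖ ≤ 1 → 1 - δ / 2 < tL p → (∀ n, p.1.2 n = p.1.1 n - tL p) →
          ∀ n, -(δ / 2) ≤ p.1.1 n ∧ p.1.1 n ≤ 1 := by
        intro p hp hpt hpn n
        have h1 := (E_le_norm1 p n).trans hp
        have h2 := (E_le_norm2 p n).trans hp
        rw [hpn n] at h2
        obtain ⟨h3, h4⟩ := abs_le.1 h1
        obtain ⟨h5, h6⟩ := abs_le.1 h2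
        constructor <;> linarith
      refine E_norm_le _ (by linarith) (fun n => ?_) (fun n => ?_)
      · change |y.1.1 n - z.1.1 n| ≤ 1 + δ
        obtain ⟨h1, h2⟩ := hb y hy1 hyt hyn n
        obtain ⟨h3, h4⟩ := hb z hz1 hzt hzn n
        rw [abs_le]; constructor <;> linarith
      · change |y.1.2 n - z.1.2 n| ≤ 1 + δ
        rw [hyn, hzn]
        obtain ⟨h1, h2⟩ := hb y hy1 hyt hyn n
        obtain ⟨h3, h4⟩ := hb z hz1 hzt hzn n
        rw [abs_le]; constructor <;> linarith

end Pool.Agent.Results.MP_4410f0_an.ThicknessOneSmallSlice
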